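import Pool.Agent.Helper28.D4.Hit
import Pool.Agent.Helper28.D4.Norm
import Pool.Agent.Helper93.D4.M2

/-!
# VT module W2: sparse polynomials of bounded individual degree
(helper37, for MP_c2aa42_lc)
-/

set_option autoImplicit false

namespace Pool.Agent.Helper37.VT

open MvPolynomial Finset

/-! ### W2a: a small nondivisor -/

theorem exists_nondivisor (N : ℕ) (hN : N ≠ 0) :
    ∃ p, 1 ≤ p ∧ p ≤ 2 * Nat.log 2 N + 4 ∧ ¬ p ∣ N := by
  by_contra hcon
  push Not at hcon
  set m := Nat.log 2 N + 2 with hm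
  have hall : ∀ p, 1 ≤ p → p ≤ 2 * m → p ∣ N := fun p h1 h2 => hcon p h1 (by omega)
  have hdvd : Nat.centralBinom m ∣ N := by
    rw [← Nat.factorization_le_iff_dvd (Nat.centralBinom_ne_zero m) hN]
    intro p
    by_cases hp : p.Prime
    · rw [← hp.pow_dvd_iff_le_factorization hN]
      apply hall
      · exact Nat.one_le_iff_ne_zero.2 (pow_ne_zero _ hp.ne_zero)
      · have h1 : (Nat.centralBinom m).factorization p ≤ Nat.log p (2 * m) := by
          rw [Nat.centralBinom_eq_two_mul_choose]
          exact Nat.factorization_choose_le_log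
        calc p ^ (Nat.centralBinom m).factorization p ≤ p ^ Nat.log p (2 * m) :=
              Nat.pow_le_pow_right hp.pos h1
          _ ≤ 2 * m := Nat.pow_log_le_self p (by omega)
    · rw [Nat.factorization_eq_zero_of_not_prime _ hp]
      exact Nat.zero_le _
  have hle := Nat.le_of_dvd (Nat.pos_of_ne_zero hN) hdvd
  have h4 := Nat.four_pow_le_two_mul_self_mul_centralBinom m (by omega)
  have hlt : N < 2 ^ (m - 1) := by
    have := Nat.lt_pow_succ_log_self (b := 2) (by norm_num) N
    rw [hm]
    simpa using this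
  have h5 : 4 ^ m = 2 ^ m * 2 ^ m := by
    rw [← mul_pow]
    norm_num
  have h6 : 2 ^ m = 2 * 2 ^ (m - 1) := by
    rw [← pow_succ']
    congr 1
  have h7 : m < 2 ^ m := Nat.lt_two_pow_self
  have h8 : 2 * m * Nat.centralBinom m < 2 ^ m * 2 ^ m := by
    calc 2 * m * Nat.centralBinom m ≤ 2 * m * N := Nat.mul_le_mul_left _ hle
      _ < 2 * m * 2 ^ (m - 1) := Nat.mul_lt_mul_of_pos_left hlt (by omega)
      _ = m * 2 ^ m := by rw [h6]; ring
      _ ≤ 2 ^ m * 2 ^ m := Nat.mul_le_mul_right _ h7.le
  rw [h5] at h4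
  omega

/-! ### the norm trick with a fixed transcendence family -/

theorem norm_trick_fixed {m n : ℕ} (P : Fin m → MvPolynomial (Fin n) ℂ) :
    ∃ r' ≤ m, ∃ s : Fin r' → Fin m, AlgebraicIndependent ℂ (fun i => P (s i)) ∧
      ∀ g : MvPolynomial (Fin m) ℂ, MvPolynomial.aeval P g ≠ 0 →
      ∃ (B : MvPolynomial (Fin r') ℂ) (h : MvPolynomial (Fin m) ℂ), B ≠ 0 ∧
        MvPolynomial.aeval (fun i => P (s i)) B = MvPolynomial.aeval P g * MvPolynomial.aeval P h := by
  classical
  set K : ℕ → Prop := fun k => ∃ s : Fin k → Fin m, AlgebraicIndependent ℂ (fun i => P (s i)) with hK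
  have hK0 : K 0 := by
    refine ⟨Fin.elim0, ?_⟩
    rw [algebraicIndependent_empty_type_iff]
    exact (algebraMap ℂ (MvPolynomial (Fin n) ℂ)).injective
  have hKr : ∀ k, K k → k ≤ m := by
    rintro k ⟨s, hs⟩
    have hinj : Function.Injective s := by
      intro i j hij
      apply hs.injective
      simp only [hij]
    simpa using Fintype.card_le_of_injective s hinj
  set r' := Nat.findGreatest K m with hr'
  have hKr' : K r' := Nat.findGreatest_spec (Nat.zero_le m) hK0
  have hmax : ¬ K (r' + 1) := by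
    intro hcon
    have h1 := hKr _ hcon
    have := Nat.le_findGreatest h1 hcon
    omega
  obtain ⟨s, hs⟩ := hKr'
  refine ⟨r', hKr _ ⟨s, hs⟩, s, hs, ?_⟩
  set x : Fin r' → MvPolynomial (Fin n) ℂ := fun i => P (s i) with hx
  -- every P j is algebraic over the adjoined algebra
  have halg : ∀ j, IsAlgebraic (Algebra.adjoin ℂ (Set.range x)) (P j) := by
    intro j
    by_contra hcon
    apply hmax
    have h1 := (AlgebraicIndependent.option_iff_transcendental hs (P j)).2 hcon
    let e : Fin (r' + 1) ≃ Option (Fin r') := finSuccEquiv r'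
    refine ⟨fun i => (e i).elim j s, ?_⟩
    have h2 := h1.comp e e.injective
    convert h2 using 2 with i
    simp only [Function.comp]
    cases e i <;> rfl
  intro g hf
  have halgf : IsAlgebraic (Algebra.adjoin ℂ (Set.range x)) (MvPolynomial.aeval P g) := by
    clear hf
    induction g using MvPolynomial.induction_on with
    | C a =>
      rw [MvPolynomial.aeval_C]
      have : algebraMap ℂ (MvPolynomial (Fin n) ℂ) a =
        algebraMap (Algebra.adjoin ℂ (Set.range x)) (MvPolynomial (Fin n) ℂ) (algebraMap ℂ _ a) := rfl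
      rw [this]
      exact isAlgebraic_algebraMap _
    | add p q hp hq => rw [map_add]; exact hp.add hq
    | mul_X p i hp => rw [map_mul, MvPolynomial.aeval_X]; exact hp.mul (halg i)
  obtain ⟨q, hq0, hq⟩ := halgf
  obtain ⟨q', hq'1, hq'2⟩ := Pool.Agent.Helper28.D4.exists_coeff_zero_ne
    (MvPolynomial.aeval P g) hf q.natDegree q le_rfl hq0 hq
  -- the constant coefficient
  obtain ⟨B, hB⟩ : ∃ B : MvPolynomial (Fin r') ℂ, MvPolynomial.aeval x B =
      ((q'.coeff 0 : Algebra.adjoin ℂ (Set.range x)) : MvPolynomial (Fin n) ℂ) := by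
    have hall : ∀ y ∈ Algebra.adjoin ℂ (Set.range x), ∃ B : MvPolynomial (Fin r') ℂ,
        MvPolynomial.aeval x B = y := by
      intro y hy
      rw [Algebra.adjoin_range_eq_range_aeval] at hy
      exact hy
    exact hall _ (q'.coeff 0).2
  have hS : ∀ p : Polynomial (Algebra.adjoin ℂ (Set.range x)),
      ∃ h : MvPolynomial (Fin m) ℂ, MvPolynomial.aeval P h =
        Polynomial.aeval (MvPolynomial.aeval P g) p := by
    intro p
    have hmem : Polynomial.aeval (MvPolynomial.aeval P g) p ∈
        (MvPolynomial.aeval P : MvPolynomial (Fin m) ℂ →ₐ[ℂ] MvPolynomial (Fin n) ℂ).range := by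
      rw [Polynomial.aeval_eq_sum_range]
      apply Subalgebra.sum_mem
      intro i _
      rw [Algebra.smul_def]
      apply Subalgebra.mul_mem
      · have h1 := (p.coeff i).2
        have h2 : Algebra.adjoin ℂ (Set.range x) ≤
            (MvPolynomial.aeval P : MvPolynomial (Fin m) ℂ →ₐ[ℂ] MvPolynomial (Fin n) ℂ).range := by
          apply Algebra.adjoin_le
          rintro _ ⟨l, rfl⟩
          exact ⟨X (s l), by simp [hx]⟩
        exact h2 h1
      · apply Subalgebra.pow_mem
        exact (AlgHom.mem_range _).2 ⟨g, rfl⟩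
    exact hmem
  obtain ⟨h, hh⟩ := hS q'.divX
  refine ⟨B, -h, ?_, ?_⟩
  · rintro rfl
    rw [map_zero] at hB
    apply hq'2
    exact Subtype.ext hB.symm
  · rw [hB, map_neg, hh]
    have e := Polynomial.divX_mul_X_add q'
    rw [← e, map_add, map_mul, Polynomial.aeval_X, Polynomial.aeval_C] at hq'1
    have h3 : algebraMap (Algebra.adjoin ℂ (Set.range x)) (MvPolynomial (Fin n) ℂ) (q'.coeff 0) =
      ((q'.coeff 0 : Algebra.adjoin ℂ (Set.range x)) : MvPolynomial (Fin n) ℂ) := rfl
    rw [h3] at hq'1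
    linear_combination hq'1

/-! ### the generator -/

/-- `x_l ↦ T^{w_l} + SV generator`. -/
noncomputable def PsiS (n M : ℕ) (w : Fin n → ℕ) :
    MvPolynomial (Fin n) ℂ →ₐ[ℂ] MvPolynomial (Option (Fin M ⊕ Fin M)) ℂ :=
  MvPolynomial.aeval fun l => MvPolynomial.X none ^ (w l) +
    Pool.Agent.Helper28.D4.G n M (fun j => MvPolynomial.X (some (Sum.inl j)))
      (fun j => MvPolynomial.X (some (Sum.inr j))) l

/-- specialisation of the parameters used in the proof. -/
theorem exists_spec (n M t : ℕ) (ht : t ≤ M) (w : Fin n → ℕ) (e : Fin t → Fin n) (a : ℂ) :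
    ∃ θ : MvPolynomial (Option (Fin M ⊕ Fin M)) ℂ →ₐ[ℂ] MvPolynomial (Fin t) ℂ,
      ∀ l, θ (MvPolynomial.X none ^ (w l) +
        Pool.Agent.Helper28.D4.G n M (fun j => MvPolynomial.X (some (Sum.inl j)))
          (fun j => MvPolynomial.X (some (Sum.inr j))) l) =
        C (a ^ w l) + ∑ k : Fin t, if l = e k then X k else 0 := by
  classical
  set κ : Fin n → ℂ := fun i => ∏ i' ∈ Finset.univ.erase i, (((i : ℕ) : ℂ) - ((i' : ℕ) : ℂ)) with hκ
  have hκ0 : ∀ i, κ i ≠ 0 := by
    intro i
    rw [hκ]
    apply Finset.prod_ne_zero_iff.2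
    intro i' hi'
    rw [sub_ne_zero]
    intro heq
    have h1 : (i : ℕ) = (i' : ℕ) := by exact_mod_cast heq
    exact (Finset.ne_of_mem_erase hi') (Fin.ext h1.symm)
  let zz : Fin M → MvPolynomial (Fin t) ℂ := fun j =>
    if h : (j : ℕ) < t then C ((κ (e ⟨j, h⟩))⁻¹) * X ⟨j, h⟩ else 0
  let ww : Fin M → MvPolynomial (Fin t) ℂ := fun j =>
    if h : (j : ℕ) < t then ((((e ⟨j, h⟩ : Fin n) : ℕ) : ℕ) : MvPolynomial (Fin t) ℂ) else 0
  refine ⟨aeval (fun o => Option.elim o (C a) (Sum.elim zz ww)), ?_⟩
  intro l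
  rw [map_add, map_pow, aeval_X]
  have h1 := Pool.Agent.Helper28.D4.map_G (n := n) (D := M)
    (aeval (fun o => Option.elim o (C a) (Sum.elim zz ww)) :
      MvPolynomial (Option (Fin M ⊕ Fin M)) ℂ →ₐ[ℂ] MvPolynomial (Fin t) ℂ).toRingHom
    (fun j => MvPolynomial.X (some (Sum.inl j))) (fun j => MvPolynomial.X (some (Sum.inr j))) l
  have h2 : (aeval (fun o => Option.elim o (C a) (Sum.elim zz ww)) :
      MvPolynomial (Option (Fin M ⊕ Fin M)) ℂ →ₐ[ℂ] MvPolynomial (Fin t) ℂ)
      (Pool.Agent.Helper28.D4.G n M (fun j => MvPolynomial.X (some (Sum.inl j)))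
        (fun j => MvPolynomial.X (some (Sum.inr j))) l) = Pool.Agent.Helper28.D4.G n M zz ww l := by
    refine h1.trans ?_
    congr 1
    · funext j; simp
    · funext j; simp
  rw [h2]
  simp only [Option.elim_none, map_pow]
  congr 1
  unfold Pool.Agent.Helper28.D4.G
  have e1 : ∀ j : Fin M, zz j * ∏ i' ∈ Finset.univ.erase l, (ww j - ((i' : ℕ) : MvPolynomial (Fin t) ℂ)) =
      if h : (j : ℕ) < t then (if l = e ⟨j, h⟩ then X ⟨j, h⟩ else 0) else 0 := by
    intro j
    by_cases h : (j : ℕ) < t
    · simp only [zz, ww, dif_pos h]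
      by_cases hl : l = e ⟨j, h⟩
      · rw [if_pos hl]
        have h3 : (∏ i' ∈ Finset.univ.erase l,
            (((((e ⟨j, h⟩ : Fin n) : ℕ) : ℕ) : MvPolynomial (Fin t) ℂ) - ((i' : ℕ) : MvPolynomial (Fin t) ℂ))) =
            C (κ (e ⟨j, h⟩)) := by
          rw [hκ, hl, map_prod]
          apply Finset.prod_congr rfl
          intro i' _
          simp
        rw [h3, mul_assoc, mul_comm (X _) (C _), ← mul_assoc, ← C_mul, inv_mul_cancel₀ (hκ0 _), C_1,
          one_mul]
      · rw [if_neg hl]
        rw [Finset.prod_eq_zero (i := e ⟨j, h⟩)]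
        · simp
        · exact Finset.mem_erase.2 ⟨fun h' => hl h'.symm, Finset.mem_univ _⟩
        · simp
    · simp only [zz, dif_neg h, zero_mul]
  rw [Finset.sum_congr rfl (fun j _ => e1 j)]
  -- reindex
  symm
  apply Finset.sum_bij_ne_zero (fun (k : Fin t) _ _ => Fin.castLE ht k)
  · intro k _ _; exact Finset.mem_univ _
  · intro k1 _ _ k2 _ _ h; exact Fin.castLE_injective ht h
  · intro j _ hj
    by_cases h : (j : ℕ) < t
    · refine ⟨⟨j, h⟩, Finset.mem_univ _, ?_, ?_⟩
      · rw [dif_pos h] at hj; exact hj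
      · exact Fin.ext rfl
    · rw [dif_neg h] at hj; exact absurd rfl hj
  · intro k _ _
    have hk : ((Fin.castLE ht k : Fin M) : ℕ) < t := k.2
    rw [dif_pos hk]
    rfl

theorem psiS_indep (n M t : ℕ) (ht : t ≤ M) (w : Fin n → ℕ) (e : Fin t → Fin n)
    (P : Fin t → MvPolynomial (Fin n) ℂ) (a : ℂ)
    (ha : MvPolynomial.eval (fun l => a ^ w l)
      (Matrix.det (Matrix.of fun i j => MvPolynomial.pderiv (e j) (P i))) ≠ 0)
    (B : MvPolynomial (Fin t) ℂ) (hB : B ≠ 0) :
    PsiS n M w (MvPolynomial.aeval P B) ≠ 0 := by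
  classical
  obtain ⟨θ, hθ⟩ := exists_spec n M t ht w e a
  set φ : Fin n → MvPolynomial (Fin t) ℂ :=
    fun l => C (a ^ w l) + ∑ k : Fin t, if l = e k then X k else 0 with hφ
  have hcomp : θ.comp (PsiS n M w) = aeval φ := by
    apply MvPolynomial.algHom_ext
    intro l
    rw [AlgHom.comp_apply, PsiS, aeval_X, aeval_X, hθ]
  have hind : AlgebraicIndependent ℂ (fun i => aeval φ (P i)) := by
    apply Pool.Agent.Helper93.D4.algInd_of_jac
    have hmat : (Matrix.of fun i j => pderiv j (aeval φ (P i))) =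
        (Matrix.of fun i j => pderiv (e j) (P i)).map (aeval φ) := by
      ext1 i j
      rw [Matrix.map_apply, Matrix.of_apply, Matrix.of_apply, Pool.Agent.Helper93.D4.pderiv_aeval_comp]
      have hpd : ∀ l, pderiv j (φ l) = if l = e j then 1 else 0 := by
        intro l
        rw [hφ]
        simp only [map_add, map_sum, pderiv_C, zero_add]
        rw [Finset.sum_eq_single j]
        · by_cases h : l = e j
          · rw [if_pos h, if_pos h, pderiv_X_self]
          · rw [if_neg h, if_neg h, map_zero]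
        · intro k _ hk
          by_cases h : l = e k
          · rw [if_pos h, pderiv_X_of_ne (by simpa using hk)]
          · rw [if_neg h, map_zero]
        · intro h; exact absurd (Finset.mem_univ _) h
      rw [Finset.sum_congr rfl (fun l _ => by rw [hpd l])]
      simp
    rw [hmat]
    intro h0
    apply ha
    have h1 : aeval φ (Matrix.det (Matrix.of fun i j => pderiv (e j) (P i))) = 0 := by
      rw [AlgHom.map_det]
      exact h0
    have h2 := congrArg (MvPolynomial.eval (fun _ => (0 : ℂ))) h1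
    rw [Pool.Agent.Helper28.D4.eval_aeval_comp, map_zero] at h2
    rw [← h2]
    congr 2
    funext l
    rw [hφ]
    simp only [map_add, map_sum, eval_C]
    rw [Finset.sum_eq_zero, add_zero]
    intro k _
    split_ifs <;> simp
  intro hcon
  have h3 : aeval φ (aeval P B) = 0 := by
    rw [← hcomp, AlgHom.comp_apply, hcon, map_zero]
  apply hB
  have h4 : aeval (fun i => aeval φ (P i)) B = 0 := by
    rw [← h3]
    have : (aeval φ : MvPolynomial (Fin n) ℂ →ₐ[ℂ] MvPolynomial (Fin t) ℂ).comp (aeval P) =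
        aeval (fun i => aeval φ (P i)) := by
      apply MvPolynomial.algHom_ext
      intro i
      simp
    rw [← this]
    rfl
  exact (algebraicIndependent_iff.1 hind) B h4

/-! ### sparsity of Jacobian minors -/

lemma mem_support_pderiv {n : ℕ} (i : Fin n) (f : MvPolynomial (Fin n) ℂ) (m : Fin n →₀ ℕ)
    (hm : m ∈ (pderiv i f).support) : m + Finsupp.single i 1 ∈ f.support := by
  rw [mem_support_iff, coeff_pderiv] at hm
  exact mem_support_iff.2 (left_ne_zero_of_mul hm)

lemma card_support_pderiv {n : ℕ} (i : Fin n) (f : MvPolynomial (Fin n) ℂ) :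
    (pderiv i f).support.card ≤ f.support.card := by
  apply Finset.card_le_card_of_injOn (fun m => m + Finsupp.single i 1)
  · intro m hm
    exact mem_support_pderiv i f m hm
  · intro m1 _ m2 _ h
    exact add_right_cancel h

lemma degreeOf_pderiv {n : ℕ} (i l : Fin n) (f : MvPolynomial (Fin n) ℂ) :
    (pderiv i f).degreeOf l ≤ f.degreeOf l := by
  rw [degreeOf_le_iff]
  intro m hm
  have h1 := monomial_le_degreeOf l (mem_support_pderiv i f m hm)
  rw [Finsupp.add_apply] at h1
  omega

lemma card_support_mul_le {n : ℕ} (f g : MvPolynomial (Fin n) ℂ) :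
    (f * g).support.card ≤ f.support.card * g.support.card := by
  classical
  exact (Finset.card_le_card (support_mul f g)).trans Finset.card_add_le

lemma card_support_prod_le {n : ℕ} {ι : Type*} (s : Finset ι) (f : ι → MvPolynomial (Fin n) ℂ) (S : ℕ)
    (hf : ∀ i ∈ s, (f i).support.card ≤ S) : (∏ i ∈ s, f i).support.card ≤ S ^ s.card := by
  classical
  induction s using Finset.induction_on with
  | empty =>
    rw [Finset.prod_empty, Finset.card_empty, pow_zero]
    rw [show (1 : MvPolynomial (Fin n) ℂ) = monomial 0 1 from rfl]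
    exact (Finset.card_le_card support_monomial_subset).trans (by simp)
  | insert a s ha ih =>
    rw [Finset.prod_insert ha, Finset.card_insert_of_notMem ha, pow_succ']
    refine (card_support_mul_le _ _).trans ?_
    exact Nat.mul_le_mul (hf a (Finset.mem_insert_self a s))
      (ih (fun i hi => hf i (Finset.mem_insert_of_mem hi)))

lemma card_support_sum_le {n : ℕ} {ι : Type*} (s : Finset ι) (f : ι → MvPolynomial (Fin n) ℂ) (S : ℕ)
    (hf : ∀ i ∈ s, (f i).support.card ≤ S) : (∑ i ∈ s, f i).support.card ≤ s.card * S := by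
  classical
  induction s using Finset.induction_on with
  | empty => simp
  | insert a s ha ih =>
    rw [Finset.sum_insert ha, Finset.card_insert_of_notMem ha, Nat.succ_mul, add_comm (s.card * S)]
    refine (Finset.card_le_card support_add).trans ?_
    refine (Finset.card_union_le _ _).trans ?_
    exact Nat.add_le_add (hf a (Finset.mem_insert_self a s))
      (ih (fun i hi => hf i (Finset.mem_insert_of_mem hi)))

lemma card_support_det {n t : ℕ} (A : Matrix (Fin t) (Fin t) (MvPolynomial (Fin n) ℂ)) (S : ℕ)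
    (hA : ∀ i j, (A i j).support.card ≤ S) : A.det.support.card ≤ t.factorial * S ^ t := by
  classical
  rw [Matrix.det_apply]
  refine (card_support_sum_le Finset.univ _ (S ^ t) ?_).trans ?_
  · intro σ _
    have h1 : (Equiv.Perm.sign σ • ∏ i, A (σ i) i).support.card ≤ (∏ i, A (σ i) i).support.card := by
      apply Finset.card_le_card
      intro m hm
      rw [mem_support_iff] at hm ⊢
      intro h0
      apply hm
      rcases Int.units_eq_one_or (Equiv.Perm.sign σ) with h | h
      · rw [h, one_smul, h0]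
      · rw [h, Units.neg_smul, one_smul, coeff_neg, h0, neg_zero]
    refine h1.trans ?_
    have := card_support_prod_le Finset.univ (fun i => A (σ i) i) S (fun i _ => hA _ _)
    simpa using this
  · rw [Finset.card_univ, Fintype.card_perm, Fintype.card_fin]

lemma degreeOf_det {n t : ℕ} (A : Matrix (Fin t) (Fin t) (MvPolynomial (Fin n) ℂ)) (δ : ℕ) (l : Fin n)
    (hA : ∀ i j, (A i j).degreeOf l ≤ δ) : A.det.degreeOf l ≤ t * δ := by
  classical
  rw [Matrix.det_apply]
  refine (degreeOf_sum_le l _ _).trans ?_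
  apply Finset.sup_le
  intro σ _
  have h1 : (Equiv.Perm.sign σ • ∏ i, A (σ i) i).degreeOf l = (∏ i, A (σ i) i).degreeOf l := by
    rcases Int.units_eq_one_or (Equiv.Perm.sign σ) with h | h
    · rw [h, one_smul]
    · rw [h, Units.neg_smul, one_smul, degreeOf_neg]
  rw [h1]
  refine (degreeOf_prod_le l _ _).trans ?_
  calc ∑ i, (A (σ i) i).degreeOf l ≤ ∑ _i : Fin t, δ := Finset.sum_le_sum (fun i _ => hA _ _)
    _ = t * δ := by simp

/-! ### base `b` digits -/

lemma digits_lt (b : ℕ) : ∀ (n : ℕ) (u : Fin n → ℕ), (∀ l, u l < b) →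
    ∑ l, u l * b ^ (l : ℕ) < b ^ n := by
  intro n
  induction n with
  | zero => intro u _; simp
  | succ n ih =>
    intro u hu
    rw [Fin.sum_univ_succ]
    have h1 := ih (fun l => u l.succ) (fun l => hu _)
    have h2 : ∑ l : Fin n, u l.succ * b ^ ((l.succ : Fin (n + 1)) : ℕ) =
        b * ∑ l : Fin n, u l.succ * b ^ (l : ℕ) := by
      rw [Finset.mul_sum]
      apply Finset.sum_congr rfl
      intro l _
      rw [Fin.val_succ, pow_succ]
      ring
    rw [h2, Fin.val_zero, pow_zero, mul_one, pow_succ']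
    have h3 := hu 0
    have h4 : b * (∑ l : Fin n, u l.succ * b ^ (l : ℕ) + 1) ≤ b * b ^ n := Nat.mul_le_mul_left _ h1
    rw [mul_add, mul_one] at h4
    omega

lemma digits_inj (b : ℕ) : ∀ (n : ℕ) (u v : Fin n → ℕ), (∀ l, u l < b) → (∀ l, v l < b) →
    ∑ l, u l * b ^ (l : ℕ) = ∑ l, v l * b ^ (l : ℕ) → u = v := by
  intro n
  induction n with
  | zero => intro u v _ _ _; funext l; exact l.elim0
  | succ n ih =>
    intro u v hu hv h
    have h2 : ∀ u : Fin (n + 1) → ℕ, ∑ l : Fin n, u l.succ * b ^ ((l.succ : Fin (n + 1)) : ℕ) =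
        b * ∑ l : Fin n, u l.succ * b ^ (l : ℕ) := by
      intro u
      rw [Finset.mul_sum]
      apply Finset.sum_congr rfl
      intro l _
      rw [Fin.val_succ, pow_succ]
      ring
    rw [Fin.sum_univ_succ, Fin.sum_univ_succ, h2, h2, Fin.val_zero, pow_zero, mul_one, mul_one] at h
    have h0 : u 0 = v 0 := by
      have := congrArg (fun x => x % b) h
      simp only [Nat.add_mul_mod_self_left] at this
      rwa [Nat.mod_eq_of_lt (hu 0), Nat.mod_eq_of_lt (hv 0)] at this
    have hb : 0 < b := lt_of_le_of_lt (Nat.zero_le _) (hu 0)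
    have h1 : ∑ l : Fin n, u l.succ * b ^ (l : ℕ) = ∑ l : Fin n, v l.succ * b ^ (l : ℕ) := by
      rw [h0] at h
      exact Nat.eq_of_mul_eq_mul_left hb (Nat.add_left_cancel h)
    have h3 := ih (fun l => u l.succ) (fun l => v l.succ) (fun l => hu _) (fun l => hv _) h1
    funext l
    refine Fin.cases h0 (fun i => ?_) l
    exact congrFun h3 i

/-! ### Klivans-Spielman -/

/-- for a nonzero polynomial with individual degrees `< b` and at most `s+1` monomials there is a
nonzero `N < b^(n s)` such that the substitution `x_l ↦ T^(b^l mod p)` keeps it nonzero, for all `p ∤ N` -/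
theorem exists_bad {n : ℕ} (b s : ℕ) (g : MvPolynomial (Fin n) ℂ) (hg : g ≠ 0)
    (hd : ∀ l, g.degreeOf l < b) (hs : g.support.card ≤ s + 1) :
    ∃ N : ℕ, N ≠ 0 ∧ N ≤ (b ^ n) ^ s ∧ ∀ p : ℕ, 1 ≤ p → ¬ p ∣ N →
      ∃ a : ℂ, MvPolynomial.eval (fun l : Fin n => a ^ (b ^ (l : ℕ) % p)) g ≠ 0 := by
  classical
  obtain ⟨α, hα⟩ : g.support.Nonempty := by
    rw [Finset.nonempty_iff_ne_empty, Ne, MvPolynomial.support_eq_empty]
    exact hg
  have hlt : ∀ β ∈ g.support, ∀ l, β l < b := fun β hβ l =>
    lt_of_le_of_lt (monomial_le_degreeOf l hβ) (hd l)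
  set val : (Fin n →₀ ℕ) → ℤ := fun β => ∑ l, (β l : ℤ) * (b : ℤ) ^ (l : ℕ) with hval
  have hvalN : ∀ β, val β = ((∑ l, β l * b ^ (l : ℕ) : ℕ) : ℤ) := by
    intro β
    rw [hval]
    push_cast
    rfl
  have hval_lt : ∀ β ∈ g.support, 0 ≤ val β ∧ val β < (b : ℤ) ^ n := by
    intro β hβ
    rw [hvalN]
    constructor
    · positivity
    · exact_mod_cast digits_lt b n β (hlt β hβ)
  have hb : 1 ≤ b ^ n := by
    rcases Nat.eq_zero_or_pos n with h | h
    · subst h; simp
    · have := hlt α hα ⟨0, h⟩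
      exact Nat.one_le_pow _ _ (by omega)
  refine ⟨∏ β ∈ g.support.erase α, (val α - val β).natAbs, ?_, ?_, ?_⟩
  · rw [Finset.prod_ne_zero_iff]
    intro β hβ
    rw [Finset.mem_erase] at hβ
    rw [Int.natAbs_ne_zero, sub_ne_zero]
    intro h
    apply hβ.1
    rw [hvalN, hvalN] at h
    have h1 := digits_inj b n α β (hlt α hα) (hlt β hβ.2) (by exact_mod_cast h)
    exact (DFunLike.coe_injective h1).symm
  · calc ∏ β ∈ g.support.erase α, (val α - val β).natAbs ≤ ∏ β ∈ g.support.erase α, b ^ n := by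
          apply Finset.prod_le_prod
          · intro _ _; exact Nat.zero_le _
          · intro β hβ
            rw [Finset.mem_erase] at hβ
            have h1 := hval_lt α hα
            have h2 := hval_lt β hβ.2
            have h3 : ((val α - val β).natAbs : ℤ) ≤ ((b ^ n : ℕ) : ℤ) := by
              push_cast
              rw [abs_le]
              constructor <;> linarith [h1.1, h1.2, h2.1, h2.2]
            exact_mod_cast h3
      _ = (b ^ n) ^ (g.support.card - 1) := by
          rw [Finset.prod_const, Finset.card_erase_of_mem hα]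
      _ ≤ (b ^ n) ^ s := Nat.pow_le_pow_right hb (by omega)
  · intro p hp hpN
    -- the exponent function modulo p
    set E : (Fin n →₀ ℕ) → ℕ := fun β => ∑ l, β l * (b ^ (l : ℕ) % p) with hE
    have hEmod : ∀ β, (p : ℤ) ∣ val β - (E β : ℤ) := by
      intro β
      rw [hval, hE]
      push_cast
      rw [← Finset.sum_sub_distrib]
      apply Finset.dvd_sum
      intro l _
      rw [← mul_sub]
      apply Dvd.dvd.mul_left
      exact Int.dvd_self_sub_emod
    have hEne : ∀ β ∈ g.support, β ≠ α → E β ≠ E α := by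
      intro β hβ hne h
      apply hpN
      have h1 : (p : ℤ) ∣ val α - val β := by
        have h2 := dvd_sub (hEmod α) (hEmod β)
        rw [h] at h2
        have h3 : val α - (E α : ℤ) - (val β - (E α : ℤ)) = val α - val β := by ring
        rwa [h3] at h2
      have h4 : p ∣ (val α - val β).natAbs := by
        rw [← Int.natCast_dvd_natCast, Int.dvd_natAbs]
        exact h1
      exact h4.trans (Finset.dvd_prod_of_mem (fun β => (val α - val β).natAbs)
        (Finset.mem_erase.2 ⟨hne, hβ⟩))
    -- the univariate polynomial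
    set q : Polynomial ℂ := aeval (fun l : Fin n => (Polynomial.X : Polynomial ℂ) ^ (b ^ (l : ℕ) % p)) g with hq
    have hqc : q.coeff (E α) = coeff α g := by
      rw [hq, aeval_def, eval₂_eq', Polynomial.finsetSum_coeff, Finset.sum_eq_single α]
      · have : ∏ l : Fin n, ((Polynomial.X : Polynomial ℂ) ^ (b ^ (l : ℕ) % p)) ^ α l =
            Polynomial.X ^ (E α) := by
          rw [hE, ← Finset.prod_pow_eq_pow_sum]
          apply Finset.prod_congr rfl
          intro l _
          rw [← pow_mul, mul_comm]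
        rw [this]
        change (Polynomial.C (coeff α g) * _).coeff _ = _
        rw [Polynomial.coeff_C_mul, Polynomial.coeff_X_pow, if_pos rfl, mul_one]
      · intro β hβ hne
        have : ∏ l : Fin n, ((Polynomial.X : Polynomial ℂ) ^ (b ^ (l : ℕ) % p)) ^ β l =
            Polynomial.X ^ (E β) := by
          rw [hE, ← Finset.prod_pow_eq_pow_sum]
          apply Finset.prod_congr rfl
          intro l _
          rw [← pow_mul, mul_comm]
        rw [this]
        change (Polynomial.C (coeff β g) * _).coeff _ = _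
        rw [Polynomial.coeff_C_mul, Polynomial.coeff_X_pow, if_neg (hEne β hβ hne).symm, mul_zero]
      · intro h; exact absurd hα h
    have hq0 : q ≠ 0 := by
      intro h
      rw [h, Polynomial.coeff_zero] at hqc
      exact (mem_support_iff.1 hα) hqc.symm
    obtain ⟨a, ha⟩ : ∃ a : ℂ, Polynomial.eval a q ≠ 0 := by
      by_contra hcon
      push Not at hcon
      exact hq0 (Polynomial.funext (fun a => by simpa using hcon a))
    refine ⟨a, ?_⟩
    intro h0
    apply ha
    rw [hq, ← h0]
    have h1 : ∀ f : MvPolynomial (Fin n) ℂ, Polynomial.eval a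
        (aeval (fun l : Fin n => (Polynomial.X : Polynomial ℂ) ^ (b ^ (l : ℕ) % p)) f) =
        MvPolynomial.eval (fun l : Fin n => a ^ (b ^ (l : ℕ) % p)) f := by
      intro f
      induction f using MvPolynomial.induction_on with
      | C c => simp
      | add x y hx hy => rw [map_add, Polynomial.eval_add, map_add, hx, hy]
      | mul_X x i hx => rw [map_mul, Polynomial.eval_mul, map_mul, hx]; simp
    exact h1 g

/-- the bound for the modulus -/
def Bound (n M S δ Q : ℕ) : ℕ :=
  2 * (Q * (M.factorial * S ^ M) * (n * (Nat.log 2 (M * δ + 1) + 1))) + 4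

theorem sparse_faithful (n M S δ Q : ℕ) (c : Fin Q → Fin M → MvPolynomial (Fin n) ℂ)
    (hs : ∀ q j, (c q j).support.card ≤ S) (hd : ∀ q j l, (c q j).degreeOf l ≤ δ) :
    ∃ p, 1 ≤ p ∧ p ≤ Bound n M S δ Q ∧ ∀ q, ∀ H : MvPolynomial (Fin M) ℂ,
      MvPolynomial.aeval (c q) H ≠ 0 →
        PsiS n M (fun l => (M * δ + 1) ^ (l : ℕ) % p) (MvPolynomial.aeval (c q) H) ≠ 0 := by
  classical
  set b := M * δ + 1 with hb
  set s := M.factorial * S ^ M with hsdef
  choose t ht sel hsel hnorm using fun q => norm_trick_fixed (c q)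
  choose e he using fun q => Pool.Agent.Helper93.D4.jac_of_algInd (fun i => c q (sel q i)) (hsel q)
  -- the minors
  set g : Fin Q → MvPolynomial (Fin n) ℂ := fun q =>
    Matrix.det (Matrix.of fun i j => MvPolynomial.pderiv (e q j) (c q (sel q i))) with hg
  have hgd : ∀ q l, (g q).degreeOf l < b := by
    intro q l
    have h1 := degreeOf_det (Matrix.of fun i j => MvPolynomial.pderiv (e q j) (c q (sel q i))) δ l
      (fun i j => (degreeOf_pderiv _ _ _).trans (hd _ _ _))
    have h2 : t q * δ ≤ M * δ := Nat.mul_le_mul_right _ (ht q)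
    rw [hb, hg]
    exact Nat.lt_succ_of_le (h1.trans h2)
  have hgs : ∀ q, (g q).support.card ≤ s + 1 := by
    intro q
    have h1 := card_support_det (Matrix.of fun i j => MvPolynomial.pderiv (e q j) (c q (sel q i))) S
      (fun i j => (card_support_pderiv _ _).trans (hs _ _))
    rcases Nat.eq_zero_or_pos (t q) with h0 | h0
    · have h2 : (t q).factorial * S ^ (t q) = 1 := by rw [h0]; simp
      rw [h2] at h1
      exact h1.trans (by omega)
    · rcases Nat.eq_zero_or_pos S with hS | hS
      · subst hS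
        rw [zero_pow (by omega), mul_zero] at h1
        exact h1.trans (by omega)
      · refine h1.trans (Nat.le_succ_of_le ?_)
        rw [hsdef]
        exact Nat.mul_le_mul (Nat.factorial_le (ht q)) (Nat.pow_le_pow_right hS (ht q))
  choose N hN0 hNle hNp using fun q => exists_bad b s (g q) (he q) (hgd q) (hgs q)
  obtain ⟨p, hp1, hp2, hp3⟩ := exists_nondivisor (∏ q, N q) (Finset.prod_ne_zero_iff.2 fun q _ => hN0 q)
  refine ⟨p, hp1, ?_, ?_⟩
  · refine hp2.trans ?_
    unfold Bound
    rw [← hb, ← hsdef]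
    have h1 : ∏ q, N q ≤ ((b ^ n) ^ s) ^ Q := by
      calc ∏ q, N q ≤ ∏ _q : Fin Q, (b ^ n) ^ s :=
            Finset.prod_le_prod (fun _ _ => Nat.zero_le _) (fun q _ => hNle q)
        _ = ((b ^ n) ^ s) ^ Q := by simp
    have h2 : ((b ^ n) ^ s) ^ Q ≤ 2 ^ (Q * s * (n * (Nat.log 2 b + 1))) := by
      have h3 : b ≤ 2 ^ (Nat.log 2 b + 1) := (Nat.lt_pow_succ_log_self (by norm_num) b).le
      calc ((b ^ n) ^ s) ^ Q = b ^ (n * s * Q) := by rw [← pow_mul, ← pow_mul]; congr 1; ring
        _ ≤ (2 ^ (Nat.log 2 b + 1)) ^ (n * s * Q) := Nat.pow_le_pow_left h3 _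
        _ = 2 ^ (Q * s * (n * (Nat.log 2 b + 1))) := by
            rw [← pow_mul]
            congr 1
            ring
    have h4 : Nat.log 2 (∏ q, N q) ≤ Q * s * (n * (Nat.log 2 b + 1)) := by
      calc Nat.log 2 (∏ q, N q) ≤ Nat.log 2 (2 ^ (Q * s * (n * (Nat.log 2 b + 1)))) :=
            Nat.log_mono_right (h1.trans h2)
        _ = _ := Nat.log_pow (by norm_num) _
    omega
  · intro q H hH
    have hpq : ¬ p ∣ N q := fun h => hp3 (h.trans (Finset.dvd_prod_of_mem N (Finset.mem_univ q)))
    obtain ⟨a, ha⟩ := hNp q p hp1 hpq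
    obtain ⟨B, h, hB0, hB⟩ := hnorm q H hH
    have h1 := psiS_indep n M (t q) (ht q) (fun l => b ^ (l : ℕ) % p) (e q)
      (fun i => c q (sel q i)) a ha B hB0
    rw [hB, map_mul] at h1
    exact left_ne_zero_of_mul h1

end Pool.Agent.Helper37.VT
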